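import Pool.Agent.Lib.MP_8fffab_lc_TX.Main
import Pool.Agent.Lib.MP_8fffab_lc_MC.Num

/-!
# The lower bound for many sets, and the upper bound
-/

set_option autoImplicit false

open Finset Filter

namespace SetCoverThr

theorem choose_ge {k : ℕ} (hk : 1 ≤ k) : ∀ h n : ℕ, k * h ≤ n → k ^ h ≤ n.choose h := by
  intro h
  induction h with
  | zero => intro n _; simp
  | succ h ih =>
    intro n hn
    obtain ⟨n', rfl⟩ : ∃ n', n = n' + 1 := by
      refine ⟨n - 1, ?_⟩
      have : 1 * 1 ≤ k * (h + 1) := Nat.mul_le_mul hk (by omega)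
      omega
    have h1 : k * h ≤ n' := by
      have : k * (h + 1) = k * h + k := by ring
      omega
    have h2 := ih n' h1
    have h3 := Nat.add_one_mul_choose_eq n' h
    have h4 : (h + 1) * k ^ (h + 1) ≤ (h + 1) * (n' + 1).choose (h + 1) := by
      calc (h + 1) * k ^ (h + 1) = (k * (h + 1)) * k ^ h := by ring
        _ ≤ (n' + 1) * n'.choose h := Nat.mul_le_mul hn h2
        _ = (n' + 1).choose (h + 1) * (h + 1) := h3
        _ = (h + 1) * (n' + 1).choose (h + 1) := by ring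
    exact Nat.le_of_mul_le_mul_left h4 (by omega)

theorem factorial_ge (h k : ℕ) : h.factorial ^ k * k.factorial ^ h ≤ (k * h).factorial := by
  induction k with
  | zero => simp
  | succ k ih =>
    have h1 : (k + 1) * h = k * h + h := by ring
    have h2 : ((k + 1) * h).factorial =
        ((k + 1) * h).choose h * h.factorial * (k * h).factorial := by
      rw [h1, ← Nat.add_choose_mul_factorial_mul_factorial (k * h) h]
      ring
    rw [h2]
    calc h.factorial ^ (k + 1) * (k + 1).factorial ^ h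
        = (k + 1) ^ h * h.factorial * (h.factorial ^ k * k.factorial ^ h) := by
          rw [Nat.factorial_succ, mul_pow]
          ring
      _ ≤ ((k + 1) * h).choose h * h.factorial * (k * h).factorial :=
          Nat.mul_le_mul (Nat.mul_le_mul_right _ (choose_ge (by omega) h _ le_rfl)) ih

theorem isGate_mono {V : Type} [Fintype V] [DecidableEq V] {s s' : ℕ} (hs : s ≤ s')
    {g : Finset (Finset V) → ℝ} (hg : IsGate s g) : IsGate s' g := by
  rcases hg with ⟨T, G, hG⟩ | hX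
  · left
    refine ⟨fun l => if hl : l.val < s then T ⟨l.val, hl⟩ else (∅, ∅),
      fun P => G fun l => P (Fin.castLE hs l), fun F => ?_⟩
    rw [hG]
    congr 1
    funext l
    simp
  · exact Or.inr hX

theorem asym (b : ℝ) (c : ℕ) (δ : ℝ) (hδ0 : 0 ≤ δ) (hδ : δ < 1) :
    ∃ k₀ : ℕ, ∀ k ≥ k₀, ∃ h₀ : ℕ, ∀ h ≥ h₀, ∀ (s M : ℕ)
      (g : Fin M → Finset (Finset (Fin (k * h))) → ℝ),
      (s : ℝ) ≤ ((k * h).choose h : ℝ) ^ δ → (∀ i, IsGate s (g i)) →
      (∀ F : Finset (Finset (Fin (k * h))), (∀ S ∈ F, S.card = h) →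
        (HasCover k F ↔ 0 < ∑ i, g i F)) →
      b ^ (k * h) * (((k * h).choose h : ℝ) * (k * h : ℕ)) ^ c ≤ M := by
  obtain ⟨b', hb'⟩ : ∃ b', b' = max |b| 1 := ⟨_, rfl⟩
  have hb1 : 1 ≤ b' := by rw [hb']; exact le_max_right _ _
  have hbb : |b| ≤ b' := by rw [hb']; exact le_max_left _ _
  obtain ⟨B, hB⟩ : ∃ B, B = Real.log b' := ⟨_, rfl⟩
  have hδ' : 0 < 1 - δ := by linarith
  have e1 : ∀ᶠ k : ℕ in atTop, (B + 4) / (1 - δ) ≤ Real.log k :=
    (Real.tendsto_log_atTop.comp tendsto_natCast_atTop_atTop).eventually_ge_atTop _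
  have e2 : ∀ᶠ k : ℕ in atTop, (c : ℝ) * ((1 + Real.log k) / k) ≤ 1 / 2 :=
    (SetCoverMono.tendsto_aux c).eventually_le_const (by norm_num)
  obtain ⟨k₁, hk₁⟩ := (e1.and (e2.and (eventually_ge_atTop 2))).exists_forall_of_atTop
  refine ⟨k₁, fun k hk => ?_⟩
  obtain ⟨ha, hb2, hk2⟩ := hk₁ k hk
  have hk0 : (0 : ℝ) < k := by
    have : 0 < k := by omega
    exact_mod_cast this
  have hk1 : (1 : ℝ) ≤ k := by
    have : 1 ≤ k := by omega
    exact_mod_cast this
  obtain ⟨L, hL⟩ : ∃ L, L = Real.log k := ⟨_, rfl⟩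
  have hL0 : 0 ≤ L := by rw [hL]; exact Real.log_nonneg hk1
  rw [← hL] at ha hb2
  have htend : Tendsto (fun h : ℕ => k * h) atTop atTop :=
    tendsto_id.const_mul_atTop' (by omega)
  have e3 : ∀ᶠ h : ℕ in atTop, (c : ℝ) * (Real.log (k * h : ℕ) / (k * h : ℕ)) ≤ 1 / 2 :=
    (((SetCoverMono.tendsto_aux2 c).comp htend).eventually_le_const
      (show (0 : ℝ) < 1 / 2 by norm_num))
  have e4 : ∀ᶠ h : ℕ in atTop, 3 * L + 2 ≤ (h : ℝ) :=
    tendsto_natCast_atTop_atTop.eventually_ge_atTop _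
  obtain ⟨h₁, hh₁⟩ := (e3.and (e4.and (eventually_ge_atTop 3))).exists_forall_of_atTop
  refine ⟨h₁, fun h hh s M g hs hgate hg => ?_⟩
  obtain ⟨hc3, hc4, hh3⟩ := hh₁ h hh
  obtain ⟨n, hn⟩ : ∃ n, n = k * h := ⟨_, rfl⟩
  obtain ⟨m, hm⟩ : ∃ m, m = (k * h).choose h := ⟨_, rfl⟩
  have hn0 : 0 < n := by rw [hn]; exact Nat.mul_pos (by omega) (by omega)
  have hn' : (0 : ℝ) < n := by exact_mod_cast hn0
  have hnkh : (n : ℝ) = k * h := by rw [hn]; push_cast; rfl
  have hm0 : 0 < m := by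
    rw [hm]
    exact Nat.choose_pos (Nat.le_mul_of_pos_left h (by omega))
  have hm' : (0 : ℝ) < m := by exact_mod_cast hm0
  have hm1 : (1 : ℝ) ≤ m := by exact_mod_cast hm0
  have hh' : (0 : ℝ) < h := by
    have : 0 < h := by omega
    exact_mod_cast this
  -- log m ≤ h (1 + L)
  have hlogm : Real.log m ≤ h * (1 + L) := by
    have h1 := SetCoverMono.log_choose_le (k * h) k (by omega)
    rw [Nat.mul_div_cancel_left h (by omega : 0 < k), ← hm, ← hL] at h1
    refine h1.trans (le_of_eq ?_)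
    push_cast
    field_simp
  have hlogm0 : 0 ≤ Real.log m := Real.log_nonneg hm1
  -- the lower bound
  obtain ⟨s', hs'⟩ : ∃ s', s' = max s 1 := ⟨_, rfl⟩
  have hs'1 : 1 ≤ s' := by rw [hs']; exact le_max_right _ _
  have hs'2 : (s' : ℝ) ≤ (m : ℝ) ^ δ := by
    rw [hs']
    push_cast
    refine max_le ?_ (Real.one_le_rpow hm1 hδ0)
    rw [hm]
    exact hs
  obtain ⟨h', rfl⟩ : ∃ h', h = h' + 3 := ⟨h - 3, by omega⟩
  have hlow := lower hk2 hs'1 g (fun i => isGate_mono (by rw [hs']; exact le_max_left _ _)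
    (hgate i)) hg
  have hfac := (factorial_ge h' k).trans hlow
  have hkey : k.factorial ^ h' ≤ M * (4 * s') ^ k := by
    have h1 : h'.factorial ^ k * k.factorial ^ h' ≤ h'.factorial ^ k * (M * (4 * s') ^ k) := by
      calc _ ≤ M * (4 * s') ^ k * h'.factorial ^ k := hfac
        _ = _ := by ring
    exact Nat.le_of_mul_le_mul_left h1 (by positivity)
  have hM0 : 0 < M := by
    rcases Nat.eq_zero_or_pos M with h1 | h1
    · rw [h1, Nat.zero_mul] at hkey
      have : 0 < k.factorial ^ h' := by positivity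
      omega
    · exact h1
  have hM' : (0 : ℝ) < M := by exact_mod_cast hM0
  have hs'' : (0 : ℝ) < s' := by
    have : 0 < s' := by omega
    exact_mod_cast this
  have hlog1 : h' * Real.log k.factorial ≤ Real.log M + k * (Real.log 4 + Real.log s') := by
    have h1 : ((k.factorial : ℝ)) ^ h' ≤ M * (4 * s') ^ k := by exact_mod_cast hkey
    have h2 := Real.log_le_log (by positivity) h1
    rw [Real.log_pow, Real.log_mul hM'.ne' (by positivity), Real.log_pow,
      Real.log_mul (by norm_num) hs''.ne'] at h2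
    exact h2
  have hlog2 : k * L - k ≤ Real.log k.factorial := by
    have h1 := Real.pow_div_factorial_le_exp (k : ℝ) hk0.le k
    have h2 := Real.log_le_log (by positivity) h1
    rw [Real.log_exp, Real.log_div (by positivity) (by positivity), Real.log_pow, ← hL] at h2
    linarith
  have hlog3 : Real.log s' ≤ δ * Real.log m := by
    have h1 := Real.log_le_log hs'' hs'2
    rwa [Real.log_rpow hm'] at h1
  have hlog4 : Real.log 4 ≤ 2 := by
    have h1 : Real.log 4 = 2 * Real.log 2 := by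
      rw [show (4 : ℝ) = 2 ^ 2 by norm_num, Real.log_pow]
      norm_num
    have := Real.log_two_lt_d9
    rw [h1]
    linarith
  -- the comparison
  have hmain : n * B + c * (Real.log m + Real.log n) ≤ Real.log M := by
    have a1 : (1 - δ) * L ≥ B + 4 := by
      rw [div_le_iff₀ hδ'] at ha
      linarith
    have a2 : c * (1 + L) ≤ k / 2 := by
      have h1 : (c : ℝ) * ((1 + L) / k) * k ≤ 1 / 2 * k := mul_le_mul_of_nonneg_right hb2 hk0.le
      have h2 : (c : ℝ) * ((1 + L) / k) * k = c * (1 + L) := by field_simp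
      linarith
    have a3 : c * Real.log n ≤ n / 2 := by
      rw [← hn] at hc3
      have h1 : (c : ℝ) * (Real.log n / n) * n ≤ 1 / 2 * n := mul_le_mul_of_nonneg_right hc3 hn'.le
      have h2 : (c : ℝ) * (Real.log n / n) * n = c * Real.log n := by field_simp
      linarith
    have hh'3 : ((h' + 3 : ℕ) : ℝ) = h' + 3 := by push_cast; ring
    rw [hh'3] at hc4 hlogm hnkh hh'
    have hh'0 : (0 : ℝ) ≤ h' := Nat.cast_nonneg _
    have b1 : (h' : ℝ) * (k * L - k) ≤ h' * Real.log k.factorial :=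
      mul_le_mul_of_nonneg_left hlog2 hh'0
    have b2 : Real.log s' ≤ δ * ((h' + 3) * (1 + L)) :=
      hlog3.trans (mul_le_mul_of_nonneg_left hlogm hδ0)
    have b3 : (k : ℝ) * Real.log s' ≤ k * (δ * ((h' + 3) * (1 + L))) :=
      mul_le_mul_of_nonneg_left b2 hk0.le
    have b4 : (c : ℝ) * Real.log m ≤ c * ((h' + 3) * (1 + L)) :=
      mul_le_mul_of_nonneg_left hlogm (Nat.cast_nonneg _)
    have b5 : (c : ℝ) * ((h' + 3) * (1 + L)) ≤ (h' + 3) * (k / 2) := by
      have := mul_le_mul_of_nonneg_left a2 (show (0 : ℝ) ≤ h' + 3 by linarith)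
      linarith
    have b6 : (k : ℝ) * (h' + 3) * (B + 4) ≤ k * (h' + 3) * ((1 - δ) * L) :=
      mul_le_mul_of_nonneg_left a1 (by positivity)
    have b7 : (k : ℝ) * Real.log 4 ≤ k * 2 := mul_le_mul_of_nonneg_left hlog4 hk0.le
    have b8 : (k : ℝ) * (3 * L + 2) ≤ k * (h' + 3) := mul_le_mul_of_nonneg_left hc4 hk0.le
    have b9 : (k : ℝ) * (h' + 3) * δ ≤ k * (h' + 3) * 1 :=
      mul_le_mul_of_nonneg_left hδ.le (by positivity)
    rw [hnkh] at a3 ⊢
    nlinarith
  -- back
  have hfin : b' ^ n * ((m : ℝ) * n) ^ c ≤ M := by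
    rw [← Real.log_le_log_iff (by positivity) hM', Real.log_mul (by positivity) (by positivity),
      Real.log_pow, Real.log_pow, Real.log_mul hm'.ne' hn'.ne', ← hB]
    exact hmain
  rw [← hm, ← hn]
  refine le_trans ?_ hfin
  refine mul_le_mul_of_nonneg_right ?_ (by positivity)
  calc b ^ n ≤ |b ^ n| := le_abs_self _
    _ = |b| ^ n := abs_pow _ _
    _ ≤ b' ^ n := pow_le_pow_left₀ (abs_nonneg _) hbb _

end SetCoverThr
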