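import Pool.Agent.Lib.MP_8fffab_lc_TX.Gadget

/-!
# Counting the restrictions that a gate serves
-/

set_option autoImplicit false

open Finset

namespace SetCoverThr

variable {K h : ℕ}

theorem sum_rank (Q : Finset (Finset (Fin ((K + 2) * h)))) :
    ∑ A ∈ Q, (3 / 4 : ℝ) ^ (Q.filter fun A' => vl A < vl A').card = 4 * (1 - (3 / 4) ^ Q.card) := by
  induction Q using Finset.induction_on_min_value (f := vl) with
  | empty => simp
  | insert A Q hA hmin ih =>
    have hlt : ∀ A' ∈ Q, vl A < vl A' := by
      intro A' hA'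
      refine lt_of_le_of_ne (hmin A' hA') ?_
      intro h1
      rw [vl_inj h1] at hA
      exact hA hA'
    rw [sum_insert hA, card_insert_of_notMem hA]
    have h1 : (insert A Q).filter (fun A' => vl A < vl A') = Q := by
      ext A'
      simp only [mem_filter, mem_insert]
      constructor
      · rintro ⟨rfl | h2, h3⟩
        · exact absurd h3 (lt_irrefl _)
        · exact h2
      · intro h2
        exact ⟨Or.inr h2, hlt A' h2⟩
    have h2 : ∑ B ∈ Q, (3 / 4 : ℝ) ^ ((insert A Q).filter fun A' => vl B < vl A').card =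
        ∑ B ∈ Q, (3 / 4 : ℝ) ^ (Q.filter fun A' => vl B < vl A').card := by
      refine sum_congr rfl fun B hB => ?_
      congr 2
      ext A'
      simp only [mem_filter, mem_insert]
      constructor
      · rintro ⟨rfl | h2, h3⟩
        · exact absurd (hlt B hB) (not_lt.2 h3.le)
        · exact ⟨h2, h3⟩
      · rintro ⟨h2, h3⟩
        exact ⟨Or.inr h2, h3⟩
    rw [h1, h2, ih, pow_succ]
    ring

theorem card_fiber (A : Fin (K + 2) → Finset (Fin ((K + 2) * h))) :
    (univ.filter fun π : Fin (K + 2) × Fin h ≃ Fin ((K + 2) * h) => (fun j => blk π j) = A).card ≤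
      h.factorial ^ (K + 2) := by
  classical
  by_cases hA : ∀ j, (A j).card = h
  · have h1 : (univ.filter fun π : Fin (K + 2) × Fin h ≃ Fin ((K + 2) * h) =>
        (fun j => blk π j) = A).card =
        Fintype.card {π : Fin (K + 2) × Fin h ≃ Fin ((K + 2) * h) // (fun j => blk π j) = A} :=
      (Fintype.card_subtype _).symm
    rw [h1]
    have hmem : ∀ (π : {π : Fin (K + 2) × Fin h ≃ Fin ((K + 2) * h) // (fun j => blk π j) = A})
        (j : Fin (K + 2)) (i : Fin h), π.1 (j, i) ∈ A j := by
      intro π j i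
      have h2 : blk π.1 j = A j := congrFun π.2 j
      rw [← h2]
      exact mem_blk.2 ⟨i, rfl⟩
    let Φ : {π : Fin (K + 2) × Fin h ≃ Fin ((K + 2) * h) // (fun j => blk π j) = A} →
        ∀ j, Fin h ↪ {v // v ∈ A j} := fun π j =>
      ⟨fun i => ⟨π.1 (j, i), hmem π j i⟩, fun i i' hi => by
        have h2 := congrArg Subtype.val hi
        exact (Prod.mk.inj (π.1.injective h2)).2⟩
    have hΦ : Function.Injective Φ := by
      intro π π' hππ
      apply Subtype.ext
      ext ⟨j, i⟩
      have h2 := congrFun hππ j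
      have h3 := DFunLike.congr_fun h2 i
      exact congrArg Fin.val (congrArg Subtype.val h3)
    refine (Fintype.card_le_of_injective Φ hΦ).trans ?_
    rw [Fintype.card_pi]
    refine le_of_eq ?_
    have h3 : ∀ j, Fintype.card (Fin h ↪ {v // v ∈ A j}) = h.factorial := by
      intro j
      rw [Fintype.card_embedding_eq, Fintype.card_coe, hA j, Fintype.card_fin,
        Nat.descFactorial_self]
    rw [prod_congr rfl fun j _ => h3 j, prod_const, card_univ, Fintype.card_fin]
  · have h1 : (univ.filter fun π : Fin (K + 2) × Fin h ≃ Fin ((K + 2) * h) =>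
        (fun j => blk π j) = A) = ∅ := by
      rw [filter_eq_empty_iff]
      rintro π - rfl
      exact hA fun j => card_blk π j
    rw [h1]
    simp

theorem count (Qp : Fin (K + 2) → Finset (Fin ((K + 2) * h)) → Prop)
    (W : Fin (K + 2) → Finset (Fin ((K + 2) * h)) → Finset (Fin 4))
    (hW : ∀ j A, Qp j A → (W j A).Nonempty)
    (S : Finset ((Fin (K + 2) × Fin h ≃ Fin ((K + 2) * h)) ×
      (Fin (K + 2) × Finset (Fin ((K + 2) * h)) → Fin 4)))
    (hS : ∀ p ∈ S, ∀ j, Qp j (blk p.1 j) ∧ ∀ A : Finset (Fin ((K + 2) * h)), Qp j A →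
      A.card = h → vl (blk p.1 j) < vl A → p.2 (j, A) ∉ W j A) :
    (S.card : ℝ) ≤ (h.factorial : ℝ) ^ (K + 2) * 4 ^ (K + 2) *
      4 ^ Fintype.card (Fin (K + 2) × Finset (Fin ((K + 2) * h))) := by
  classical
  obtain ⟨Q, hQ⟩ : ∃ Q : Fin (K + 2) → Finset (Finset (Fin ((K + 2) * h))),
      ∀ j A, A ∈ Q j ↔ Qp j A ∧ A.card = h :=
    ⟨fun j => univ.filter fun A => Qp j A ∧ A.card = h, fun j A => by simp⟩
  obtain ⟨w, hw⟩ : ∃ w : Fin (K + 2) → Finset (Fin ((K + 2) * h)) → ℝ,
      w = fun j A => if A ∈ Q j then (3 / 4 : ℝ) ^ ((Q j).filter fun A' => vl A < vl A').card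
        else 0 := ⟨_, rfl⟩
  have hw0 : ∀ j A, 0 ≤ w j A := by
    intro j A
    rw [hw]
    simp only
    split_ifs
    · positivity
    · exact le_rfl
  -- the choices for one partition
  have hone : ∀ π : Fin (K + 2) × Fin h ≃ Fin ((K + 2) * h),
      ((univ.filter fun β => (π, β) ∈ S).card : ℝ) ≤
        4 ^ Fintype.card (Fin (K + 2) × Finset (Fin ((K + 2) * h))) * ∏ j, w j (blk π j) := by
    intro π
    rcases (univ.filter fun β => (π, β) ∈ S).eq_empty_or_nonempty with h1 | ⟨β₀, h1⟩
    · rw [h1, card_empty]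
      have : 0 ≤ ∏ j, w j (blk π j) := prod_nonneg fun j _ => hw0 _ _
      push_cast
      positivity
    · have h2 : (π, β₀) ∈ S := by simpa using h1
      have h3 : ∀ j, blk π j ∈ Q j := fun j => (hQ _ _).2 ⟨(hS _ h2 j).1, card_blk π j⟩
      have h4 : (univ.filter fun β => (π, β) ∈ S) ⊆
          Fintype.piFinset fun e : Fin (K + 2) × Finset (Fin ((K + 2) * h)) =>
            if e.2 ∈ (Q e.1).filter (fun A' => vl (blk π e.1) < vl A') then (W e.1 e.2)ᶜ
              else univ := by
        intro β hβ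
        have h5 : (π, β) ∈ S := by simpa using hβ
        rw [Fintype.mem_piFinset]
        rintro ⟨j, A⟩
        split_ifs with h6
        · obtain ⟨h7, h8⟩ := mem_filter.1 h6
          obtain ⟨h9, h10⟩ := (hQ _ _).1 h7
          rw [mem_compl]
          exact (hS _ h5 j).2 A h9 h10 h8
        · exact mem_univ _
      have h5 : ((univ.filter fun β => (π, β) ∈ S).card : ℝ) ≤
          ∏ e : Fin (K + 2) × Finset (Fin ((K + 2) * h)),
            (if e.2 ∈ (Q e.1).filter (fun A' => vl (blk π e.1) < vl A') then (3 : ℝ) else 4) := by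
        have h6 := card_le_card h4
        rw [Fintype.card_piFinset] at h6
        have h7 : ((univ.filter fun β => (π, β) ∈ S).card : ℝ) ≤
            ((∏ e : Fin (K + 2) × Finset (Fin ((K + 2) * h)),
              (if e.2 ∈ (Q e.1).filter (fun A' => vl (blk π e.1) < vl A') then (W e.1 e.2)ᶜ
                else univ).card : ℕ) : ℝ) := by exact_mod_cast h6
        refine h7.trans ?_
        rw [Nat.cast_prod]
        refine prod_le_prod (fun e _ => Nat.cast_nonneg _) fun e _ => ?_
        split_ifs with h8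
        · have h9 := (hQ _ _).1 (mem_filter.1 h8).1
          have h10 : 1 ≤ (W e.1 e.2).card := card_pos.2 (hW _ _ h9.1)
          have h11 : (W e.1 e.2)ᶜ.card ≤ 3 := by
            rw [card_compl, Fintype.card_fin]
            omega
          exact_mod_cast h11
        · rw [card_univ, Fintype.card_fin]
          norm_num
      refine h5.trans (le_of_eq ?_)
      have h6 : ∀ e : Fin (K + 2) × Finset (Fin ((K + 2) * h)),
          (if e.2 ∈ (Q e.1).filter (fun A' => vl (blk π e.1) < vl A') then (3 : ℝ) else 4) =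
            4 * (if e.2 ∈ (Q e.1).filter (fun A' => vl (blk π e.1) < vl A') then (3 / 4 : ℝ)
              else 1) := by
        intro e
        split_ifs
        · norm_num
        · norm_num
      rw [prod_congr rfl fun e _ => h6 e, prod_mul_distrib, prod_const, card_univ,
        Fintype.prod_prod_type]
      congr 1
      refine prod_congr rfl fun j _ => ?_
      rw [hw]
      simp only
      rw [if_pos (h3 j), prod_ite_mem, univ_inter, prod_const]
  have hcard : (S.card : ℝ) = ∑ π : Fin (K + 2) × Fin h ≃ Fin ((K + 2) * h),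
      ((univ.filter fun β => (π, β) ∈ S).card : ℝ) := by
    have h1 : S.card = ∑ p : (Fin (K + 2) × Fin h ≃ Fin ((K + 2) * h)) ×
        (Fin (K + 2) × Finset (Fin ((K + 2) * h)) → Fin 4), if p ∈ S then 1 else 0 := by
      rw [sum_ite_mem, univ_inter, sum_const, smul_eq_mul, mul_one]
    rw [h1, Fintype.sum_prod_type, Nat.cast_sum]
    refine sum_congr rfl fun π _ => ?_
    rw [card_filter]
  rw [hcard]
  refine (sum_le_sum fun π _ => hone π).trans ?_
  rw [← mul_sum]
  have hfib : ∑ π : Fin (K + 2) × Fin h ≃ Fin ((K + 2) * h), ∏ j, w j (blk π j) ≤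
      (h.factorial : ℝ) ^ (K + 2) * 4 ^ (K + 2) := by
    rw [← sum_fiberwise (s := univ)
      (g := fun π : Fin (K + 2) × Fin h ≃ Fin ((K + 2) * h) => fun j => blk π j)]
    have h1 : ∀ A : Fin (K + 2) → Finset (Fin ((K + 2) * h)),
        ∑ π ∈ univ.filter (fun π : Fin (K + 2) × Fin h ≃ Fin ((K + 2) * h) =>
          (fun j => blk π j) = A), ∏ j, w j (blk π j) ≤
        (h.factorial : ℝ) ^ (K + 2) * ∏ j, w j (A j) := by
      intro A
      have h2 : ∑ π ∈ univ.filter (fun π : Fin (K + 2) × Fin h ≃ Fin ((K + 2) * h) =>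
          (fun j => blk π j) = A), ∏ j, w j (blk π j) =
          ∑ π ∈ univ.filter (fun π : Fin (K + 2) × Fin h ≃ Fin ((K + 2) * h) =>
          (fun j => blk π j) = A), ∏ j, w j (A j) := by
        refine sum_congr rfl fun π hπ => ?_
        have h3 := (mem_filter.1 hπ).2
        rw [← h3]
      rw [h2, sum_const, nsmul_eq_mul]
      refine mul_le_mul_of_nonneg_right ?_ (prod_nonneg fun j _ => hw0 _ _)
      exact_mod_cast card_fiber A
    refine (sum_le_sum fun A _ => h1 A).trans ?_
    rw [← mul_sum]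
    refine mul_le_mul_of_nonneg_left ?_ (by positivity)
    have h2 : ∑ A : Fin (K + 2) → Finset (Fin ((K + 2) * h)), ∏ j, w j (A j) =
        ∏ j : Fin (K + 2), ∑ A : Finset (Fin ((K + 2) * h)), w j A := by
      rw [prod_univ_sum, Fintype.piFinset_univ]
    rw [h2]
    have h3 : ∀ j : Fin (K + 2), ∑ A : Finset (Fin ((K + 2) * h)), w j A ≤ 4 := by
      intro j
      rw [hw]
      simp only
      rw [sum_ite_mem, univ_inter, sum_rank]
      have : (0 : ℝ) ≤ (3 / 4) ^ (Q j).card := by positivity
      linarith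
    calc ∏ j : Fin (K + 2), ∑ A : Finset (Fin ((K + 2) * h)), w j A
        ≤ ∏ _j : Fin (K + 2), (4 : ℝ) :=
          prod_le_prod (fun j _ => sum_nonneg fun A _ => hw0 _ _) fun j _ => h3 j
      _ = 4 ^ (K + 2) := by rw [prod_const, card_univ, Fintype.card_fin]
  calc (4 : ℝ) ^ Fintype.card (Fin (K + 2) × Finset (Fin ((K + 2) * h))) *
      ∑ π : Fin (K + 2) × Fin h ≃ Fin ((K + 2) * h), ∏ j, w j (blk π j)
      ≤ 4 ^ Fintype.card (Fin (K + 2) × Finset (Fin ((K + 2) * h))) *
        ((h.factorial : ℝ) ^ (K + 2) * 4 ^ (K + 2)) :=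
        mul_le_mul_of_nonneg_left hfib (by positivity)
    _ = _ := by ring

end SetCoverThr
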