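import Pool.Agent.Lib.MP_8fffab_lc_TX.Gadget

/-!
# The covers of the gadget
-/

set_option autoImplicit false

open Finset

namespace SetCoverThr

variable {K h : ℕ}

theorem prefix_succ (σ : Fin (K + 2) → ZMod 2) (hσ : ∑ j, σ j = 1) (j : Fin (K + 2)) :
    ∑ i ∈ univ.filter (· < j + 1), σ i =
      ∑ i ∈ univ.filter (· < j), σ i + σ j + if j = Fin.last (K + 1) then 1 else 0 := by
  by_cases hj : j = Fin.last (K + 1)
  · rw [if_pos hj]
    subst hj
    have h0 : (Fin.last (K + 1) + 1 : Fin (K + 2)) = 0 := Fin.last_add_one _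
    rw [h0]
    have h1 : (univ.filter fun i : Fin (K + 2) => i < 0) = ∅ := by
      ext i
      simp
    have h2 : (univ : Finset (Fin (K + 2))) =
        insert (Fin.last (K + 1)) (univ.filter (· < Fin.last (K + 1))) := by
      ext i
      simp only [mem_univ, mem_insert, mem_filter, true_and, true_iff]
      rcases eq_or_lt_of_le (Fin.le_last i) with h | h
      · exact Or.inl h
      · exact Or.inr h
    rw [h1, sum_empty]
    rw [h2, sum_insert (by simp)] at hσ
    rw [add_comm (∑ i ∈ univ.filter (· < Fin.last (K + 1)), σ i), hσ]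
    decide
  · rw [if_neg hj, add_zero]
    have hlt : j < Fin.last (K + 1) := lt_of_le_of_ne (Fin.le_last j) hj
    have h1 : (j + 1 : Fin (K + 2)).val = j.val + 1 := Fin.val_add_one_of_lt hlt
    have h2 : (univ.filter fun i : Fin (K + 2) => i < j + 1) =
        insert j (univ.filter (· < j)) := by
      ext i
      simp only [mem_insert, mem_filter, mem_univ, true_and, Fin.lt_def, Fin.ext_iff, h1]
      omega
    rw [h2, sum_insert (by simp), add_comm]

theorem hasCover_of_sum (π : Fin (K + 2) × Fin h ≃ Fin ((K + 2) * h))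
    (st : Fin (K + 2) → Finset (Fin ((K + 2) * h)) → ZMod 2)
    (hst : ∑ j, st j (blk π j) = 1) : HasCover (K + 2) (fam π st) := by
  obtain ⟨a, ha⟩ : ∃ a : Fin (K + 2) → ZMod 2,
      a = fun j => ∑ i ∈ univ.filter (· < j), st i (blk π i) := ⟨_, rfl⟩
  have hsucc : ∀ j, a (j + 1) = a j + st j (blk π j) + if j = Fin.last (K + 1) then 1 else 0 := by
    intro j
    rw [ha]
    exact prefix_succ _ hst j
  refine ⟨univ.image fun j => St j (blk π j) (a j) (st j (blk π j)), ?_, ?_, ?_⟩
  · intro S hS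
    obtain ⟨j, -, rfl⟩ := mem_image.1 hS
    exact St_mem_fam.2 ⟨card_blk π j, le_rfl, rfl⟩
  · refine card_image_le.trans ?_
    rw [card_univ, Fintype.card_fin]
  · rintro (v | i | ⟨i, c⟩)
    · obtain ⟨⟨j, i⟩, rfl⟩ := π.surjective v
      exact ⟨_, mem_image_of_mem _ (mem_univ j), inl_mem_St.2 (mem_blk.2 ⟨i, rfl⟩)⟩
    · exact ⟨_, mem_image_of_mem _ (mem_univ i), tag_mem_St.2 rfl⟩
    · by_cases hc : c = a i
      · exact ⟨_, mem_image_of_mem _ (mem_univ i), link_mem_St.2 (Or.inl ⟨rfl, hc⟩)⟩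
      · have hc' : c = a i + 1 := by
          generalize a i = d at hc
          revert hc
          revert c d
          decide
        refine ⟨_, mem_image_of_mem _ (mem_univ (i - 1)), link_mem_St.2 (Or.inr ⟨?_, ?_⟩)⟩
        · rw [sub_add_cancel]
        · have h1 := hsucc (i - 1)
          rw [sub_add_cancel] at h1
          rw [hc', h1, out]
          ring

theorem sum_eq_of_cover {A : Fin (K + 2) → Finset (Fin ((K + 2) * h))} (hc : ∀ j, (A j).card = h)
    (hcov : ∀ v, ∃ j, v ∈ A j) : ∑ j, vl (A j) = ∑ v : Fin ((K + 2) * h), 2 ^ (v : ℕ) := by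
  have h1 : ∀ f : Fin ((K + 2) * h) → ℕ, ∑ j, ∑ v ∈ A j, f v =
      ∑ v, (univ.filter fun j => v ∈ A j).card * f v := by
    intro f
    have h2 : ∀ j, ∑ v ∈ A j, f v = ∑ v, if v ∈ A j then f v else 0 := by
      intro j
      rw [sum_ite_mem, univ_inter]
    simp only [h2]
    rw [sum_comm]
    refine sum_congr rfl fun v _ => ?_
    rw [← sum_filter, sum_const, smul_eq_mul]
  have h3 : ∀ v, 1 ≤ (univ.filter fun j => v ∈ A j).card := by
    intro v
    obtain ⟨j, hj⟩ := hcov v
    exact card_pos.2 ⟨j, by simpa using hj⟩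
  have h4 : ∑ v : Fin ((K + 2) * h), 1 = ∑ v, (univ.filter fun j => v ∈ A j).card := by
    have h5 := h1 fun _ => 1
    simp only [mul_one, sum_const, smul_eq_mul, card_univ, hc, Fintype.card_fin] at h5
    rw [sum_const, smul_eq_mul, mul_one, card_univ, Fintype.card_fin]
    exact h5
  have h5 := (sum_eq_sum_iff_of_le fun v _ => h3 v).1 h4
  unfold vl
  rw [h1]
  refine sum_congr rfl fun v hv => ?_
  rw [← h5 v hv, one_mul]

theorem sum_of_hasCover (π : Fin (K + 2) × Fin h ≃ Fin ((K + 2) * h))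
    (st : Fin (K + 2) → Finset (Fin ((K + 2) * h)) → ZMod 2)
    (hG : HasCover (K + 2) (fam π st)) : ∑ j, st j (blk π j) = 1 := by
  obtain ⟨G, hGF, hGc, hcov⟩ := hG
  have h1 : ∀ j, ∃ (A : Finset (Fin ((K + 2) * h))) (a : ZMod 2),
      St j A a (st j A) ∈ G ∧ A.card = h ∧ vl (blk π j) ≤ vl A := by
    intro j
    obtain ⟨S, hS, hj⟩ := hcov (Sum.inr (Sum.inl j))
    obtain ⟨j', A, a, h2, h3, rfl⟩ := mem_fam.1 (hGF hS)
    rw [tag_mem_St] at hj
    subst hj
    exact ⟨A, a, hS, h2, h3⟩
  choose A a hSt hAc hAv using h1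
  have hinj : Function.Injective fun j => St j (A j) (a j) (st j (A j)) := fun j j' hj =>
    (St_inj hj).1
  have himg : univ.image (fun j => St j (A j) (a j) (st j (A j))) = G := by
    refine eq_of_subset_of_card_le ?_ ?_
    · intro S hS
      obtain ⟨j, -, rfl⟩ := mem_image.1 hS
      exact hSt j
    · rw [card_image_of_injective _ hinj, card_univ, Fintype.card_fin]
      exact hGc
  have hcov' : ∀ v, ∃ j, v ∈ St j (A j) (a j) (st j (A j)) := by
    intro v
    obtain ⟨S, hS, hv⟩ := hcov v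
    rw [← himg] at hS
    obtain ⟨j, -, rfl⟩ := mem_image.1 hS
    exact ⟨j, hv⟩
  have hbase : ∀ v, ∃ j, v ∈ A j := by
    intro v
    obtain ⟨j, hj⟩ := hcov' (Sum.inl v)
    exact ⟨j, inl_mem_St.1 hj⟩
  have hsum : ∑ j, vl (blk π j) = ∑ j, vl (A j) := by
    rw [sum_vl_blk, sum_eq_of_cover hAc hbase]
  have hAb : ∀ j, A j = blk π j := by
    intro j
    have h2 := (sum_eq_sum_iff_of_le fun j _ => hAv j).1 hsum j (mem_univ j)
    exact (vl_inj h2).symm
  have hlink : ∀ j, a (j + 1) = a j + st j (blk π j) + if j = Fin.last (K + 1) then 1 else 0 := by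
    intro j
    obtain ⟨i, hi⟩ := hcov' (Sum.inr (Sum.inr (j + 1, a (j + 1) + 1)))
    rw [link_mem_St] at hi
    rcases hi with ⟨h2, h3⟩ | ⟨h2, h3⟩
    · exfalso
      rw [← h2] at h3
      generalize a (j + 1) = d at h3
      revert d
      decide
    · have h4 : j = i := add_right_cancel h2
      subst h4
      rw [out, hAb j] at h3
      have h5 : a (j + 1) + 1 = a j + st j (blk π j) +
          (if j = Fin.last (K + 1) then 1 else 0) + 1 := by
        rw [h3]
        ring
      exact add_right_cancel h5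
  have hs : ∑ j, a (j + 1) = ∑ j, a j := Equiv.sum_comp (Equiv.addRight (1 : Fin (K + 2))) a
  simp only [hlink, sum_add_distrib] at hs
  rw [sum_ite_eq' univ (Fin.last (K + 1)), if_pos (mem_univ _)] at hs
  have h6 : ∑ j, st j (blk π j) + 1 = 0 := by
    have h7 : ∑ j, a j + (∑ j, st j (blk π j) + 1) = ∑ j, a j + 0 := by
      rw [add_zero, ← add_assoc]
      exact hs
    exact add_left_cancel h7
  generalize ∑ j, st j (blk π j) = d at h6
  revert d
  decide

theorem hasCover_fam (π : Fin (K + 2) × Fin h ≃ Fin ((K + 2) * h))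
    (st : Fin (K + 2) → Finset (Fin ((K + 2) * h)) → ZMod 2) :
    HasCover (K + 2) (fam π st) ↔ ∑ j, st j (blk π j) = 1 :=
  ⟨sum_of_hasCover π st, hasCover_of_sum π st⟩

end SetCoverThr
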