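import Mathlib

/-!
# Threshold circuits for Set Cover: definitions

The input is a family `F` of subsets of a set `V`: there is one Boolean variable `S ∈ F` for each
subset `S` of `V`.
-/

set_option autoImplicit false

open Finset

namespace SetCoverThr

variable {V : Type} [Fintype V] [DecidableEq V]

/-- At most `k` members of the family `F` cover `V`. -/
def HasCover (k : ℕ) (F : Finset (Finset V)) : Prop :=
  ∃ G ⊆ F, G.card ≤ k ∧ ∀ v, ∃ S ∈ G, v ∈ S

/-- The conjunction of the literals `S ∈ F`, `S ∈ T.1`, and `S ∉ F`, `S ∈ T.2`. -/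
def Holds (T : Finset (Finset V) × Finset (Finset V)) (F : Finset (Finset V)) : Prop :=
  (∀ S ∈ T.1, S ∈ F) ∧ ∀ S ∈ T.2, S ∉ F

/-- A gate with weight: a real function of the values of `s` conjunctions of literals, or a
multiple of the parity of a set of variables. -/
def IsGate (s : ℕ) (g : Finset (Finset V) → ℝ) : Prop :=
  (∃ (T : Fin s → Finset (Finset V) × Finset (Finset V)) (G : (Fin s → Prop) → ℝ),
    ∀ F, g F = G fun l => Holds (T l) F) ∨
  ∃ (X : Finset (Finset V)) (c : ℝ), ∀ F, g F = c * (-1) ^ (X ∩ F).card

end SetCoverThr
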