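import Pool.Agent.Lib.MP_8fffab_lc_TX.Defs

/-!
# The gadget
-/

set_option autoImplicit false

open Finset

namespace SetCoverThr

variable {K h : ℕ}

/-- The elements: `(K + 2) * h` base elements, a tag for each part, and two link elements for
each part. -/
abbrev U (K h : ℕ) : Type := Fin ((K + 2) * h) ⊕ (Fin (K + 2) ⊕ (Fin (K + 2) × ZMod 2))

/-- The link element number `j + 1` that is covered by the part `j`. -/
def out (j : Fin (K + 2)) (a σ : ZMod 2) : ZMod 2 :=
  a + σ + 1 + if j = Fin.last (K + 1) then 1 else 0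

/-- The set of type `j` with base part `A`, input `a` and state `σ`. -/
def St (j : Fin (K + 2)) (A : Finset (Fin ((K + 2) * h))) (a σ : ZMod 2) : Finset (U K h) :=
  A.disjSum (({j} : Finset (Fin (K + 2))).disjSum {(j, a), (j + 1, out j a σ)})

theorem inl_mem_St {j : Fin (K + 2)} {A : Finset (Fin ((K + 2) * h))} {a σ : ZMod 2}
    {v : Fin ((K + 2) * h)} : (Sum.inl v : U K h) ∈ St j A a σ ↔ v ∈ A := by
  simp [St]

theorem tag_mem_St {j i : Fin (K + 2)} {A : Finset (Fin ((K + 2) * h))} {a σ : ZMod 2} :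
    (Sum.inr (Sum.inl i) : U K h) ∈ St j A a σ ↔ i = j := by
  simp [St]

theorem link_mem_St {j i : Fin (K + 2)} {A : Finset (Fin ((K + 2) * h))} {a σ c : ZMod 2} :
    (Sum.inr (Sum.inr (i, c)) : U K h) ∈ St j A a σ ↔
      (i = j ∧ c = a) ∨ (i = j + 1 ∧ c = out j a σ) := by
  simp [St]

theorem ne_add_one (j : Fin (K + 2)) : j ≠ j + 1 := by
  intro h
  have h1 : (1 : Fin (K + 2)) = 0 := by
    have h2 : j + 0 = j + 1 := by rw [add_zero]; exact h
    exact (add_left_cancel h2).symm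
  exact absurd h1 (by simp)

theorem card_St {j : Fin (K + 2)} {A : Finset (Fin ((K + 2) * h))} {a σ : ZMod 2} :
    (St j A a σ).card = A.card + 3 := by
  rw [St, card_disjSum, card_disjSum, card_singleton, card_pair]
  intro h
  exact ne_add_one j (Prod.mk.inj h).1

theorem St_inj {j j' : Fin (K + 2)} {A A' : Finset (Fin ((K + 2) * h))} {a a' σ σ' : ZMod 2}
    (hS : St j A a σ = St j' A' a' σ') : j = j' ∧ A = A' ∧ a = a' ∧ σ = σ' := by
  have h1 : j = j' := by
    rw [← tag_mem_St (A := A') (a := a') (σ := σ'), ← hS, tag_mem_St]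
  subst h1
  have h2 : A = A' := by
    ext v
    rw [← inl_mem_St (j := j) (a := a) (σ := σ), hS, inl_mem_St]
  subst h2
  have h3 : a = a' := by
    have h4 : (Sum.inr (Sum.inr (j, a)) : U K h) ∈ St j A a' σ' := by
      rw [← hS, link_mem_St]
      exact Or.inl ⟨rfl, rfl⟩
    rw [link_mem_St] at h4
    rcases h4 with h4 | h4
    · exact h4.2
    · exact absurd h4.1 (ne_add_one j)
  subst h3
  refine ⟨rfl, rfl, rfl, ?_⟩
  have h4 : (Sum.inr (Sum.inr (j + 1, out j a σ)) : U K h) ∈ St j A a σ' := by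
    rw [← hS, link_mem_St]
    exact Or.inr ⟨rfl, rfl⟩
  rw [link_mem_St] at h4
  rcases h4 with h4 | h4
  · exact absurd h4.1.symm (ne_add_one j)
  · have h5 := h4.2
    unfold out at h5
    have h6 := add_right_cancel h5
    exact add_left_cancel (add_right_cancel h6)

/-- The value of a set of base elements. -/
def vl (A : Finset (Fin ((K + 2) * h))) : ℕ := ∑ v ∈ A, 2 ^ (v : ℕ)

theorem vl_inj {A A' : Finset (Fin ((K + 2) * h))} (hA : vl A = vl A') : A = A' := by
  have h1 := Finset.geomSum_injective (n := 2) le_rfl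
  have h2 : (A.map Fin.valEmbedding) = (A'.map Fin.valEmbedding) := by
    apply h1
    simp only [sum_map]
    exact hA
  exact Finset.map_injective _ h2

/-- The part number `j` of the partition given by `π`. -/
def blk (π : Fin (K + 2) × Fin h ≃ Fin ((K + 2) * h)) (j : Fin (K + 2)) :
    Finset (Fin ((K + 2) * h)) :=
  univ.map ⟨fun i : Fin h => π (j, i), fun i i' hi => by
    have := π.injective hi
    exact (Prod.mk.inj this).2⟩

theorem mem_blk {π : Fin (K + 2) × Fin h ≃ Fin ((K + 2) * h)} {j : Fin (K + 2)}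
    {v : Fin ((K + 2) * h)} : v ∈ blk π j ↔ ∃ i, π (j, i) = v := by
  simp [blk]

theorem card_blk (π : Fin (K + 2) × Fin h ≃ Fin ((K + 2) * h)) (j : Fin (K + 2)) :
    (blk π j).card = h := by
  rw [blk, card_map, card_univ, Fintype.card_fin]

theorem sum_vl_blk (π : Fin (K + 2) × Fin h ≃ Fin ((K + 2) * h)) :
    ∑ j, vl (blk π j) = ∑ v : Fin ((K + 2) * h), 2 ^ (v : ℕ) := by
  simp only [vl, blk, sum_map, Function.Embedding.coeFn_mk]
  rw [← Equiv.sum_comp π, Fintype.sum_prod_type]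

/-- The family of the sets that are present: base part with a value at least the value of the
part of the partition, state `st`. -/
def fam (π : Fin (K + 2) × Fin h ≃ Fin ((K + 2) * h))
    (st : Fin (K + 2) → Finset (Fin ((K + 2) * h)) → ZMod 2) : Finset (Finset (U K h)) :=
  (univ.filter fun p : (Fin (K + 2) × Finset (Fin ((K + 2) * h))) × ZMod 2 =>
    p.1.2.card = h ∧ vl (blk π p.1.1) ≤ vl p.1.2).image
      fun p => St p.1.1 p.1.2 p.2 (st p.1.1 p.1.2)

theorem mem_fam {π : Fin (K + 2) × Fin h ≃ Fin ((K + 2) * h)}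
    {st : Fin (K + 2) → Finset (Fin ((K + 2) * h)) → ZMod 2} {S : Finset (U K h)} :
    S ∈ fam π st ↔ ∃ j A a, A.card = h ∧ vl (blk π j) ≤ vl A ∧ S = St j A a (st j A) := by
  simp only [fam, mem_image, mem_filter, mem_univ, true_and]
  constructor
  · rintro ⟨⟨⟨j, A⟩, a⟩, ⟨h1, h2⟩, rfl⟩
    exact ⟨j, A, a, h1, h2, rfl⟩
  · rintro ⟨j, A, a, h1, h2, rfl⟩
    exact ⟨((j, A), a), ⟨h1, h2⟩, rfl⟩

theorem St_mem_fam {π : Fin (K + 2) × Fin h ≃ Fin ((K + 2) * h)}
    {st : Fin (K + 2) → Finset (Fin ((K + 2) * h)) → ZMod 2} {j : Fin (K + 2)}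
    {A : Finset (Fin ((K + 2) * h))} {a σ : ZMod 2} :
    St j A a σ ∈ fam π st ↔ A.card = h ∧ vl (blk π j) ≤ vl A ∧ st j A = σ := by
  rw [mem_fam]
  constructor
  · rintro ⟨j', A', a', h1, h2, h3⟩
    obtain ⟨rfl, rfl, rfl, rfl⟩ := St_inj h3
    exact ⟨h1, h2, rfl⟩
  · rintro ⟨h1, h2, rfl⟩
    exact ⟨j, A, a, h1, h2, rfl⟩

theorem card_of_mem_fam {π : Fin (K + 2) × Fin h ≃ Fin ((K + 2) * h)}
    {st : Fin (K + 2) → Finset (Fin ((K + 2) * h)) → ZMod 2} {S : Finset (U K h)}
    (hS : S ∈ fam π st) : S.card = h + 3 := by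
  obtain ⟨j, A, a, h1, -, rfl⟩ := mem_fam.1 hS
  rw [card_St, h1]

end SetCoverThr
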