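import Pool.Agent.Lib.MP_8fffab_lc_TX.Serve
import Pool.Agent.Lib.MP_8fffab_lc_TX.Count

/-!
# The lower bound
-/

set_option autoImplicit false

open Finset

namespace SetCoverThr

theorem lower_U {K h s M : ℕ} (hs : 1 ≤ s) (g : Fin M → Finset (Finset (U K h)) → ℝ)
    (hgate : ∀ i, IsGate s (g i))
    (hg : ∀ F : Finset (Finset (U K h)), (∀ S ∈ F, S.card = h + 3) →
      (HasCover (K + 2) F ↔ 0 < ∑ i, g i F)) :
    ((K + 2) * h).factorial ≤ M * (4 * s) ^ (K + 2) * h.factorial ^ (K + 2) := by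
  classical
  obtain ⟨E, hE⟩ : ∃ E, E = Fintype.card (Fin (K + 2) × Finset (Fin ((K + 2) * h))) := ⟨_, rfl⟩
  obtain ⟨B, hB⟩ : ∃ B : ℝ, B = (h.factorial : ℝ) ^ (K + 2) * 4 ^ (K + 2) * 4 ^ E := ⟨_, rfl⟩
  have hB0 : 0 ≤ B := by rw [hB]; positivity
  have hs' : (1 : ℝ) ≤ (s : ℝ) ^ (K + 2) := one_le_pow₀ (by exact_mod_cast hs)
  have hserve : ∀ i, ((univ.filter fun p : (Fin (K + 2) × Fin h ≃ Fin ((K + 2) * h)) ×
      (Pos K h → Fin 4) => coef (g i) p.1 p.2 ≠ 0).card : ℝ) ≤ (s : ℝ) ^ (K + 2) * B := by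
    intro i
    rcases hgate i with ⟨T, G, hG⟩ | ⟨X, c, hX⟩
    · have h1 : (univ.filter fun p : (Fin (K + 2) × Fin h ≃ Fin ((K + 2) * h)) ×
          (Pos K h → Fin 4) => coef (g i) p.1 p.2 ≠ 0) ⊆
          (univ : Finset (Fin (K + 2) → Fin s)).biUnion fun l =>
            univ.filter fun p : (Fin (K + 2) × Fin h ≃ Fin ((K + 2) * h)) ×
              (Pos K h → Fin 4) => ∀ j, touch (T (l j)) j (blk p.1 j) ∧
                ∀ A : Finset (Fin ((K + 2) * h)), touch (T (l j)) j A → A.card = h →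
                  vl (blk p.1 j) < vl A → p.2 (j, A) ∉ WT (T (l j)) j A := by
        intro p hp
        have h2 := (mem_filter.1 hp).2
        have h3 := fun j => serve_conj hG h2 j
        choose l hl using h3
        rw [mem_biUnion]
        refine ⟨l, mem_univ _, mem_filter.2 ⟨mem_univ _, fun j => ⟨(hl j).1, ?_⟩⟩⟩
        intro A _ hA hv
        exact (hl j).2 A hA hv
      have h2 := (card_le_card h1).trans card_biUnion_le
      have h3 : ∀ l : Fin (K + 2) → Fin s, ((univ.filter fun p :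
          (Fin (K + 2) × Fin h ≃ Fin ((K + 2) * h)) ×
              (Pos K h → Fin 4) => ∀ j, touch (T (l j)) j (blk p.1 j) ∧
                ∀ A : Finset (Fin ((K + 2) * h)), touch (T (l j)) j A → A.card = h →
                  vl (blk p.1 j) < vl A → p.2 (j, A) ∉ WT (T (l j)) j A).card : ℝ) ≤ B := by
        intro l
        rw [hB, hE]
        refine count (fun j A => touch (T (l j)) j A) (fun j A => WT (T (l j)) j A)
          (fun j A hT => WT_nonempty hT) _ ?_
        intro p hp
        exact (mem_filter.1 hp).2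
      have h4 : ((univ.filter fun p : (Fin (K + 2) × Fin h ≃ Fin ((K + 2) * h)) ×
          (Pos K h → Fin 4) => coef (g i) p.1 p.2 ≠ 0).card : ℝ) ≤
          ∑ l : Fin (K + 2) → Fin s, ((univ.filter fun p :
          (Fin (K + 2) × Fin h ≃ Fin ((K + 2) * h)) ×
              (Pos K h → Fin 4) => ∀ j, touch (T (l j)) j (blk p.1 j) ∧
                ∀ A : Finset (Fin ((K + 2) * h)), touch (T (l j)) j A → A.card = h →
                  vl (blk p.1 j) < vl A → p.2 (j, A) ∉ WT (T (l j)) j A).card : ℝ) := by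
        exact_mod_cast h2
      refine h4.trans ((sum_le_sum fun l _ => h3 l).trans (le_of_eq ?_))
      rw [sum_const, card_univ, Fintype.card_fun, Fintype.card_fin, Fintype.card_fin, nsmul_eq_mul]
      push_cast
      rfl
    · have h1 : ((univ.filter fun p : (Fin (K + 2) × Fin h ≃ Fin ((K + 2) * h)) ×
          (Pos K h → Fin 4) => coef (g i) p.1 p.2 ≠ 0).card : ℝ) ≤ B := by
        rw [hB, hE]
        refine count (fun j A => ef X j A 0 ≠ ef X j A 1) (fun _ _ => {2, 3})
          (fun _ _ _ => ⟨2, by simp⟩) _ ?_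
        intro p hp j
        exact serve_parity hX (mem_filter.1 hp).2 j
      calc _ ≤ B := h1
        _ = 1 * B := (one_mul B).symm
        _ ≤ (s : ℝ) ^ (K + 2) * B := mul_le_mul_of_nonneg_right hs' hB0
  -- each restriction is served
  have hall : (univ : Finset ((Fin (K + 2) × Fin h ≃ Fin ((K + 2) * h)) × (Pos K h → Fin 4))) ⊆
      (univ : Finset (Fin M)).biUnion fun i =>
        univ.filter fun p : (Fin (K + 2) × Fin h ≃ Fin ((K + 2) * h)) ×
          (Pos K h → Fin 4) => coef (g i) p.1 p.2 ≠ 0 := by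
    intro p _
    obtain ⟨i, hi⟩ := exists_coef hg p.1 p.2
    exact mem_biUnion.2 ⟨i, mem_univ _, mem_filter.2 ⟨mem_univ _, hi⟩⟩
  have h1 := (card_le_card hall).trans card_biUnion_le
  have h2 : ((univ : Finset ((Fin (K + 2) × Fin h ≃ Fin ((K + 2) * h)) ×
      (Pos K h → Fin 4))).card : ℝ) ≤ ∑ i : Fin M, ((univ.filter fun p :
        (Fin (K + 2) × Fin h ≃ Fin ((K + 2) * h)) ×
          (Pos K h → Fin 4) => coef (g i) p.1 p.2 ≠ 0).card : ℝ) := by
    exact_mod_cast h1
  have h3 := h2.trans (sum_le_sum fun i _ => hserve i)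
  rw [sum_const, card_univ, card_univ, Fintype.card_prod, Fintype.card_fun, Fintype.card_fin,
    Fintype.card_fin, nsmul_eq_mul, Fintype.card_equiv finProdFinEquiv, Fintype.card_prod,
    Fintype.card_fin, Fintype.card_fin] at h3
  have h4 : (Fintype.card (Pos K h)) = E := hE.symm
  rw [h4, hB] at h3
  push_cast at h3
  have h5 : (((K + 2) * h).factorial : ℝ) * 4 ^ E ≤
      (M * (4 * s) ^ (K + 2) * (h.factorial : ℝ) ^ (K + 2)) * 4 ^ E := by
    refine h3.trans (le_of_eq ?_)
    rw [mul_pow (4 : ℝ) (s : ℝ)]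
    ring
  have h6 : (((K + 2) * h).factorial : ℝ) ≤
      M * (4 * s) ^ (K + 2) * (h.factorial : ℝ) ^ (K + 2) :=
    le_of_mul_le_mul_right h5 (by positivity)
  exact_mod_cast h6

/-! ## Change of the ground set -/

section Transport

variable {V V' : Type} [Fintype V] [DecidableEq V] [Fintype V'] [DecidableEq V']

/-- The image of a family. -/
def mapF (e : V ≃ V') (F : Finset (Finset V)) : Finset (Finset V') :=
  e.finsetCongr.finsetCongr F

theorem mem_mapF {e : V ≃ V'} {F : Finset (Finset V)} {S : Finset V'} :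
    S ∈ mapF e F ↔ e.symm.finsetCongr S ∈ F := by
  unfold mapF
  rw [Equiv.finsetCongr_apply, mem_map_equiv]
  rfl

theorem mapF_symm {e : V ≃ V'} {F : Finset (Finset V')} : mapF e (mapF e.symm F) = F := by
  ext S
  rw [mem_mapF, mem_mapF]
  have h1 : e.symm.symm.finsetCongr (e.symm.finsetCongr S) = S := by
    ext v
    simp [mem_map_equiv]
  rw [h1]

theorem isGate_mapF {s : ℕ} {g : Finset (Finset V') → ℝ} (hg : IsGate s g) (e : V ≃ V') :
    IsGate s fun F => g (mapF e F) := by
  have h1 : ∀ (S : Finset V) (F : Finset (Finset V)), e.finsetCongr S ∈ mapF e F ↔ S ∈ F := by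
    intro S F
    rw [mem_mapF]
    have h2 : e.symm.finsetCongr (e.finsetCongr S) = S := by
      ext v
      simp [mem_map_equiv]
    rw [h2]
  have h3 : ∀ (X : Finset (Finset V')) (S : Finset V), S ∈ mapF e.symm X ↔ e.finsetCongr S ∈ X := by
    intro X S
    rw [mem_mapF]
    rfl
  rcases hg with ⟨T, G, hG⟩ | ⟨X, c, hX⟩
  · left
    refine ⟨fun l => (mapF e.symm (T l).1, mapF e.symm (T l).2), G, fun F => ?_⟩
    change g (mapF e F) = _
    rw [hG]
    congr 1
    funext l
    apply propext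
    unfold Holds
    have h4 : ∀ S : Finset V', e.finsetCongr (e.symm.finsetCongr S) = S := by
      intro S
      ext v
      simp [mem_map_equiv]
    constructor
    · rintro ⟨h5, h6⟩
      refine ⟨fun S hS => ?_, fun S hS h7 => ?_⟩
      · rw [h3] at hS
        exact (h1 _ _).1 (h5 _ hS)
      · rw [h3] at hS
        exact h6 _ hS ((h1 _ _).2 h7)
    · rintro ⟨h5, h6⟩
      refine ⟨fun S hS => ?_, fun S hS h7 => ?_⟩
      · rw [mem_mapF]
        refine h5 _ ?_
        rw [h3, h4]
        exact hS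
      · rw [mem_mapF] at h7
        refine h6 (e.symm.finsetCongr S) ?_ h7
        rw [h3, h4]
        exact hS
  · right
    refine ⟨mapF e.symm X, c, fun F => ?_⟩
    change g (mapF e F) = _
    rw [hX]
    congr 2
    refine card_bij' (fun S _ => e.symm.finsetCongr S) (fun S _ => e.finsetCongr S) ?_ ?_ ?_ ?_
    · intro S hS
      rw [mem_inter] at hS ⊢
      refine ⟨?_, mem_mapF.1 hS.2⟩
      rw [h3]
      have h4 : e.finsetCongr (e.symm.finsetCongr S) = S := by
        ext v
        simp [mem_map_equiv]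
      rw [h4]
      exact hS.1
    · intro S hS
      rw [mem_inter] at hS ⊢
      exact ⟨(h3 _ _).1 hS.1, (h1 _ _).2 hS.2⟩
    · intro S _
      ext v
      simp [mem_map_equiv]
    · intro S _
      ext v
      simp [mem_map_equiv]

theorem hasCover_mapF_of {k : ℕ} {F : Finset (Finset V)} (e : V ≃ V') (hF : HasCover k F) :
    HasCover k (mapF e F) := by
  obtain ⟨G, hG, hc, hv⟩ := hF
  refine ⟨mapF e G, ?_, ?_, ?_⟩
  · intro S hS
    rw [mem_mapF] at hS ⊢
    exact hG hS
  · unfold mapF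
    rw [Equiv.finsetCongr_apply, card_map]
    exact hc
  · intro v
    obtain ⟨S, hS, hvS⟩ := hv (e.symm v)
    refine ⟨e.finsetCongr S, ?_, ?_⟩
    · rw [mem_mapF]
      have h2 : e.symm.finsetCongr (e.finsetCongr S) = S := by
        ext v
        simp [mem_map_equiv]
      rw [h2]
      exact hS
    · simpa [mem_map_equiv] using hvS

theorem hasCover_mapF {k : ℕ} {F : Finset (Finset V)} (e : V ≃ V') :
    HasCover k (mapF e F) ↔ HasCover k F := by
  refine ⟨fun hF => ?_, hasCover_mapF_of e⟩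
  have h1 := hasCover_mapF_of e.symm hF
  have h2 : mapF e.symm (mapF e F) = F := by
    have h3 := mapF_symm (e := e.symm) (F := F)
    exact h3
  rwa [h2] at h1

theorem card_of_mapF {c : ℕ} {F : Finset (Finset V)} (e : V ≃ V') (hF : ∀ S ∈ F, S.card = c) :
    ∀ S ∈ mapF e F, S.card = c := by
  intro S hS
  rw [mem_mapF] at hS
  have h1 := hF _ hS
  rwa [Equiv.finsetCongr_apply, card_map] at h1

end Transport

/-- The lower bound. -/
theorem lower {k h s M : ℕ} (hk : 2 ≤ k) (hs : 1 ≤ s)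
    (g : Fin M → Finset (Finset (Fin (k * (h + 3)))) → ℝ) (hgate : ∀ i, IsGate s (g i))
    (hg : ∀ F : Finset (Finset (Fin (k * (h + 3)))), (∀ S ∈ F, S.card = h + 3) →
      (HasCover k F ↔ 0 < ∑ i, g i F)) :
    (k * h).factorial ≤ M * (4 * s) ^ k * h.factorial ^ k := by
  obtain ⟨K, rfl⟩ : ∃ K, k = K + 2 := ⟨k - 2, by omega⟩
  have hcard : Fintype.card (U K h) = (K + 2) * (h + 3) := by
    rw [Fintype.card_sum, Fintype.card_sum, Fintype.card_prod, Fintype.card_fin, Fintype.card_fin,
      ZMod.card]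
    ring
  obtain ⟨e⟩ : Nonempty (U K h ≃ Fin ((K + 2) * (h + 3))) := ⟨Fintype.equivFinOfCardEq hcard⟩
  refine lower_U hs (fun i F => g i (mapF e F)) (fun i => isGate_mapF (hgate i) e) ?_
  intro F hF
  rw [← hg _ (card_of_mapF e hF), hasCover_mapF]

end SetCoverThr
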