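import Pool.Agent.Lib.MP_8fffab_lc_TX.Cover

/-!
# The gates that serve a restriction
-/

set_option autoImplicit false

open Finset

namespace SetCoverThr

variable {K h : ℕ}

/-- The positions. -/
abbrev Pos (K h : ℕ) : Type := Fin (K + 2) × Finset (Fin ((K + 2) * h))

/-- The state: `x` on the partition; elsewhere fixed to `0`, fixed to `1` or free. -/
def stt (π : Fin (K + 2) × Fin h ≃ Fin ((K + 2) * h)) (β : Pos K h → Fin 4) (y : Pos K h → ZMod 2)
    (x : Fin (K + 2) → ZMod 2) (j : Fin (K + 2)) (A : Finset (Fin ((K + 2) * h))) : ZMod 2 :=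
  if A = blk π j then x j else if β (j, A) = 0 then 0 else if β (j, A) = 1 then 1 else y (j, A)

/-- The sign. -/
noncomputable def sg (x : Fin (K + 2) → ZMod 2) : ℝ := if ∑ j, x j = 1 then 1 else -1

theorem sg_flip (x : Fin (K + 2) → ZMod 2) (j : Fin (K + 2)) :
    sg (x + Pi.single j 1) = - sg x := by
  unfold sg
  have h1 : ∑ i, (x + Pi.single j (1 : ZMod 2) : Fin (K + 2) → ZMod 2) i = ∑ i, x i + 1 := by
    simp [sum_add_distrib]
  rw [h1]
  generalize ∑ i, x i = d
  have h2 : d = 0 ∨ d = 1 := by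
    revert d
    decide
  rcases h2 with rfl | rfl
  · simp
  · have h3 : ¬ ((1 : ZMod 2) + 1 = 1) := by decide
    rw [if_neg h3, if_pos rfl]

/-- The coefficient. -/
noncomputable def coef (g : Finset (Finset (U K h)) → ℝ)
    (π : Fin (K + 2) × Fin h ≃ Fin ((K + 2) * h)) (β : Pos K h → Fin 4) : ℝ :=
  ∑ y, ∑ x, sg x * g (fam π (stt π β y x))

theorem exists_coef {M : ℕ} {g : Fin M → Finset (Finset (U K h)) → ℝ}
    (hg : ∀ F : Finset (Finset (U K h)), (∀ S ∈ F, S.card = h + 3) →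
      (HasCover (K + 2) F ↔ 0 < ∑ i, g i F))
    (π : Fin (K + 2) × Fin h ≃ Fin ((K + 2) * h)) (β : Pos K h → Fin 4) :
    ∃ i, coef (g i) π β ≠ 0 := by
  by_contra hne
  push Not at hne
  have h1 : ∑ i, coef (g i) π β = 0 := sum_eq_zero fun i _ => hne i
  have h2 : ∑ i, coef (g i) π β =
      ∑ y, ∑ x, sg x * ∑ i, g i (fam π (stt π β y x)) := by
    unfold coef
    rw [sum_comm]
    refine sum_congr rfl fun y _ => ?_
    rw [sum_comm]
    refine sum_congr rfl fun x _ => ?_
    rw [mul_sum]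
  rw [h2] at h1
  have hx : ∀ y x, ∑ j, stt π β y x j (blk π j) = ∑ j, x j := by
    intro y x
    refine sum_congr rfl fun j _ => ?_
    rw [stt, if_pos rfl]
  have hkey : ∀ y x, (0 < ∑ i, g i (fam π (stt π β y x)) ↔ ∑ j, x j = 1) := by
    intro y x
    rw [← hg _ fun S hS => card_of_mem_fam hS, hasCover_fam, hx]
  have hnn : ∀ y x, 0 ≤ sg x * ∑ i, g i (fam π (stt π β y x)) := by
    intro y x
    unfold sg
    split_ifs with h3
    · rw [one_mul]
      exact ((hkey y x).2 h3).le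
    · have h4 : ¬ 0 < ∑ i, g i (fam π (stt π β y x)) := fun h5 => h3 ((hkey y x).1 h5)
      push Not at h4
      linarith
  have h3 := (sum_eq_zero_iff_of_nonneg fun y _ => sum_nonneg fun x _ => hnn y x).1 h1 0 (mem_univ _)
  have h4 := (sum_eq_zero_iff_of_nonneg fun x _ => hnn 0 x).1 h3 (Pi.single 0 1) (mem_univ _)
  have h5 : ∑ j, (Pi.single 0 1 : Fin (K + 2) → ZMod 2) j = 1 := by simp
  have h6 := (hkey 0 (Pi.single 0 1)).2 h5
  unfold sg at h4
  rw [if_pos h5, one_mul] at h4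
  exact h6.ne' h4

theorem coef_eq_zero {g : Finset (Finset (U K h)) → ℝ}
    {π : Fin (K + 2) × Fin h ≃ Fin ((K + 2) * h)} {β : Pos K h → Fin 4} (j : Fin (K + 2))
    (hj : ∀ y x, g (fam π (stt π β y (x + Pi.single j 1))) = g (fam π (stt π β y x))) :
    coef g π β = 0 := by
  unfold coef
  refine sum_eq_zero fun y _ => ?_
  have h1 : ∑ x, sg x * g (fam π (stt π β y x)) = ∑ x : Fin (K + 2) → ZMod 2,
      sg (x + Pi.single j 1) * g (fam π (stt π β y (x + Pi.single j 1))) :=
    (Equiv.sum_comp (Equiv.addRight (Pi.single j (1 : ZMod 2) : Fin (K + 2) → ZMod 2))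
      fun x => sg x * g (fam π (stt π β y x))).symm
  simp only [sg_flip, hj, neg_mul, sum_neg_distrib] at h1
  linarith

theorem coef_eq_zero' {g : Finset (Finset (U K h)) → ℝ}
    {π : Fin (K + 2) × Fin h ≃ Fin ((K + 2) * h)} {β : Pos K h → Fin 4} (p : Pos K h)
    (hp : ∀ y x, g (fam π (stt π β (y + Pi.single p 1) x)) = - g (fam π (stt π β y x))) :
    coef g π β = 0 := by
  unfold coef
  have h1 : ∑ y, ∑ x, sg x * g (fam π (stt π β y x)) = ∑ y : Pos K h → ZMod 2, ∑ x,
      sg x * g (fam π (stt π β (y + Pi.single p 1) x)) :=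
    (Equiv.sum_comp (Equiv.addRight (Pi.single p (1 : ZMod 2) : Pos K h → ZMod 2))
      fun y => ∑ x, sg x * g (fam π (stt π β y x))).symm
  simp only [hp, mul_neg, sum_neg_distrib] at h1
  linarith

/-! ## Conjunctions -/

/-- The literals of `T` at the position `(j, A)` exclude the state `τ`. -/
def fals (T : Finset (Finset (U K h)) × Finset (Finset (U K h))) (j : Fin (K + 2))
    (A : Finset (Fin ((K + 2) * h))) (τ : ZMod 2) : Prop :=
  (∃ a σ, St j A a σ ∈ T.1 ∧ σ ≠ τ) ∨ ∃ a, St j A a τ ∈ T.2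

/-- `T` has a literal at the position `(j, A)`. -/
def touch (T : Finset (Finset (U K h)) × Finset (Finset (U K h))) (j : Fin (K + 2))
    (A : Finset (Fin ((K + 2) * h))) : Prop :=
  ∃ a σ, St j A a σ ∈ T.1 ∨ St j A a σ ∈ T.2

open Classical in
/-- The choices that kill `T`. -/
noncomputable def WT (T : Finset (Finset (U K h)) × Finset (Finset (U K h))) (j : Fin (K + 2))
    (A : Finset (Fin ((K + 2) * h))) : Finset (Fin 4) :=
  (if fals T j A 0 then {0} else ∅) ∪ (if fals T j A 1 then {1} else ∅)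

theorem WT_nonempty {T : Finset (Finset (U K h)) × Finset (Finset (U K h))} {j : Fin (K + 2)}
    {A : Finset (Fin ((K + 2) * h))} (hT : touch T j A) : (WT T j A).Nonempty := by
  have h1 : fals T j A 0 ∨ fals T j A 1 := by
    obtain ⟨a, σ, h1 | h1⟩ := hT
    · have h2 : σ ≠ 0 ∨ σ ≠ 1 := (by decide : ∀ d : ZMod 2, d ≠ 0 ∨ d ≠ 1) σ
      rcases h2 with h2 | h2
      · exact Or.inl (Or.inl ⟨a, σ, h1, h2⟩)
      · exact Or.inr (Or.inl ⟨a, σ, h1, h2⟩)
    · have h2 : σ = 0 ∨ σ = 1 := (by decide : ∀ d : ZMod 2, d = 0 ∨ d = 1) σ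
      rcases h2 with rfl | rfl
      · exact Or.inl (Or.inr ⟨a, h1⟩)
      · exact Or.inr (Or.inr ⟨a, h1⟩)
  unfold WT
  rcases h1 with h1 | h1
  · exact ⟨0, by rw [if_pos h1]; simp⟩
  · exact ⟨1, by rw [if_pos h1]; simp⟩

theorem not_holds_of_fals {T : Finset (Finset (U K h)) × Finset (Finset (U K h))}
    {π : Fin (K + 2) × Fin h ≃ Fin ((K + 2) * h)}
    {st : Fin (K + 2) → Finset (Fin ((K + 2) * h)) → ZMod 2} {j : Fin (K + 2)}
    {A : Finset (Fin ((K + 2) * h))} (hA : A.card = h) (hv : vl (blk π j) ≤ vl A)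
    (hf : fals T j A (st j A)) : ¬ Holds T (fam π st) := by
  rintro ⟨h1, h2⟩
  rcases hf with ⟨a, σ, h3, h4⟩ | ⟨a, h3⟩
  · exact h4 (St_mem_fam.1 (h1 _ h3)).2.2.symm
  · exact h2 _ h3 (St_mem_fam.2 ⟨hA, hv, rfl⟩)

theorem killed {T : Finset (Finset (U K h)) × Finset (Finset (U K h))}
    {π : Fin (K + 2) × Fin h ≃ Fin ((K + 2) * h)} {β : Pos K h → Fin 4} {j : Fin (K + 2)}
    {A : Finset (Fin ((K + 2) * h))} (hA : A.card = h) (hv : vl (blk π j) < vl A)
    (hβ : β (j, A) ∈ WT T j A) (y : Pos K h → ZMod 2) (x : Fin (K + 2) → ZMod 2) :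
    ¬ Holds T (fam π (stt π β y x)) := by
  have hne : A ≠ blk π j := by
    rintro rfl
    exact lt_irrefl _ hv
  refine not_holds_of_fals hA hv.le ?_
  unfold WT at hβ
  rw [mem_union] at hβ
  rcases hβ with h1 | h1
  · split_ifs at h1 with h2
    · rw [mem_singleton] at h1
      rw [stt, if_neg hne, if_pos h1]
      exact h2
    · simp at h1
  · split_ifs at h1 with h2
    · rw [mem_singleton] at h1
      rw [stt, if_neg hne, if_neg (by rw [h1]; decide), if_pos h1]
      exact h2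
    · simp at h1

theorem stt_flip {π : Fin (K + 2) × Fin h ≃ Fin ((K + 2) * h)} {β : Pos K h → Fin 4}
    {y : Pos K h → ZMod 2} {x : Fin (K + 2) → ZMod 2} {j j' : Fin (K + 2)}
    {A : Finset (Fin ((K + 2) * h))} (hne : ¬ (j' = j ∧ A = blk π j)) :
    stt π β y (x + Pi.single j 1) j' A = stt π β y x j' A := by
  unfold stt
  by_cases h1 : A = blk π j'
  · rw [if_pos h1, if_pos h1]
    have h2 : j' ≠ j := by
      rintro rfl
      exact hne ⟨rfl, h1⟩
    simp [h2]
  · rw [if_neg h1, if_neg h1]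

theorem mem_fam_flip {π : Fin (K + 2) × Fin h ≃ Fin ((K + 2) * h)} {β : Pos K h → Fin 4}
    {y : Pos K h → ZMod 2} {x : Fin (K + 2) → ZMod 2} {j : Fin (K + 2)} {S : Finset (U K h)}
    (hS : ∀ a σ, S ≠ St j (blk π j) a σ) :
    S ∈ fam π (stt π β y (x + Pi.single j 1)) ↔ S ∈ fam π (stt π β y x) := by
  rw [mem_fam, mem_fam]
  constructor
  · rintro ⟨j', A, a, h1, h2, h3⟩
    refine ⟨j', A, a, h1, h2, ?_⟩
    rw [← stt_flip (j := j)]
    · exact h3
    · rintro ⟨rfl, rfl⟩
      exact hS _ _ h3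
  · rintro ⟨j', A, a, h1, h2, h3⟩
    refine ⟨j', A, a, h1, h2, ?_⟩
    rw [stt_flip (j := j)]
    · exact h3
    · rintro ⟨rfl, rfl⟩
      exact hS _ _ h3

theorem holds_flip {T : Finset (Finset (U K h)) × Finset (Finset (U K h))}
    {π : Fin (K + 2) × Fin h ≃ Fin ((K + 2) * h)} {β : Pos K h → Fin 4}
    {y : Pos K h → ZMod 2} {x : Fin (K + 2) → ZMod 2} {j : Fin (K + 2)}
    (hT : ¬ touch T j (blk π j)) :
    Holds T (fam π (stt π β y (x + Pi.single j 1))) ↔ Holds T (fam π (stt π β y x)) := by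
  have h1 : ∀ S ∈ T.1, ∀ a σ, S ≠ St j (blk π j) a σ := by
    rintro S hS a σ rfl
    exact hT ⟨a, σ, Or.inl hS⟩
  have h2 : ∀ S ∈ T.2, ∀ a σ, S ≠ St j (blk π j) a σ := by
    rintro S hS a σ rfl
    exact hT ⟨a, σ, Or.inr hS⟩
  unfold Holds
  constructor
  · rintro ⟨h3, h4⟩
    exact ⟨fun S hS => (mem_fam_flip (h1 S hS)).1 (h3 S hS),
      fun S hS h5 => h4 S hS ((mem_fam_flip (h2 S hS)).2 h5)⟩
  · rintro ⟨h3, h4⟩
    exact ⟨fun S hS => (mem_fam_flip (h1 S hS)).2 (h3 S hS),
      fun S hS h5 => h4 S hS ((mem_fam_flip (h2 S hS)).1 h5)⟩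

/-- A function of conjunctions with a nonzero coefficient. -/
theorem serve_conj {s : ℕ} {T : Fin s → Finset (Finset (U K h)) × Finset (Finset (U K h))}
    {G : (Fin s → Prop) → ℝ} {g : Finset (Finset (U K h)) → ℝ}
    (hg : ∀ F, g F = G fun l => Holds (T l) F)
    {π : Fin (K + 2) × Fin h ≃ Fin ((K + 2) * h)} {β : Pos K h → Fin 4} (hc : coef g π β ≠ 0)
    (j : Fin (K + 2)) : ∃ l, touch (T l) j (blk π j) ∧
      ∀ A : Finset (Fin ((K + 2) * h)), A.card = h → vl (blk π j) < vl A →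
        β (j, A) ∉ WT (T l) j A := by
  by_contra hne
  push Not at hne
  apply hc
  apply coef_eq_zero j
  intro y x
  rw [hg, hg]
  congr 1
  funext l
  apply propext
  by_cases h1 : touch (T l) j (blk π j)
  · obtain ⟨A, hA, hv, hβ⟩ := hne l h1
    exact iff_of_false (killed hA hv hβ y _) (killed hA hv hβ y _)
  · exact holds_flip h1

/-! ## Parities -/

/-- The factor of the position `(j, A)` with state `σ`. -/
noncomputable def ef (X : Finset (Finset (U K h))) (j : Fin (K + 2))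
    (A : Finset (Fin ((K + 2) * h))) (σ : ZMod 2) : ℝ :=
  ∏ a : ZMod 2, if St j A a σ ∈ X then -1 else 1

theorem ef_eq_or (X : Finset (Finset (U K h))) (j : Fin (K + 2))
    (A : Finset (Fin ((K + 2) * h))) (σ : ZMod 2) : ef X j A σ = 1 ∨ ef X j A σ = -1 := by
  have h1 : ∀ s : Finset (ZMod 2), (∏ a ∈ s, if St j A a σ ∈ X then (-1 : ℝ) else 1) = 1 ∨
      (∏ a ∈ s, if St j A a σ ∈ X then (-1 : ℝ) else 1) = -1 := by
    intro s
    induction s using Finset.induction_on with
    | empty => left; simp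
    | insert a s ha ih =>
      rw [prod_insert ha]
      split_ifs
      · rcases ih with h | h
        · right; rw [h]; ring
        · left; rw [h]; ring
      · rw [one_mul]; exact ih
  exact h1 univ

/-- The positions that are present. -/
def pres (π : Fin (K + 2) × Fin h ≃ Fin ((K + 2) * h)) : Finset (Pos K h) :=
  univ.filter fun p => p.2.card = h ∧ vl (blk π p.1) ≤ vl p.2

theorem parity_fam (X : Finset (Finset (U K h))) (π : Fin (K + 2) × Fin h ≃ Fin ((K + 2) * h))
    (st : Fin (K + 2) → Finset (Fin ((K + 2) * h)) → ZMod 2) :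
    (-1 : ℝ) ^ (X ∩ fam π st).card = ∏ p ∈ pres π, ef X p.1 p.2 (st p.1 p.2) := by
  have h1 : fam π st = (pres π ×ˢ (univ : Finset (ZMod 2))).image
      fun p => St p.1.1 p.1.2 p.2 (st p.1.1 p.1.2) := by
    ext S
    rw [mem_fam, mem_image]
    constructor
    · rintro ⟨j, A, a, h1, h2, rfl⟩
      exact ⟨((j, A), a), mem_product.2 ⟨by simp [pres, h1, h2], mem_univ _⟩, rfl⟩
    · rintro ⟨⟨⟨j, A⟩, a⟩, h1, rfl⟩
      have h2 := (mem_product.1 h1).1
      simp only [pres, mem_filter, mem_univ, true_and] at h2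
      exact ⟨j, A, a, h2.1, h2.2, rfl⟩
  have h2 : (-1 : ℝ) ^ (X ∩ fam π st).card = ∏ S ∈ fam π st, if S ∈ X then (-1 : ℝ) else 1 := by
    rw [prod_ite, prod_const, prod_const_one, mul_one]
    congr 2
    ext S
    simp [and_comm]
  rw [h2, h1, prod_image, prod_product]
  · rfl
  · rintro ⟨⟨j, A⟩, a⟩ _ ⟨⟨j', A'⟩, a'⟩ _ hp
    obtain ⟨rfl, rfl, rfl, -⟩ := St_inj hp
    rfl

theorem mem_pres_blk (π : Fin (K + 2) × Fin h ≃ Fin ((K + 2) * h)) (j : Fin (K + 2)) :
    (j, blk π j) ∈ pres π := by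
  simp [pres, card_blk]

/-- A parity with a nonzero coefficient. -/
theorem serve_parity {X : Finset (Finset (U K h))} {c : ℝ} {g : Finset (Finset (U K h)) → ℝ}
    (hg : ∀ F, g F = c * (-1) ^ (X ∩ F).card)
    {π : Fin (K + 2) × Fin h ≃ Fin ((K + 2) * h)} {β : Pos K h → Fin 4} (hc : coef g π β ≠ 0)
    (j : Fin (K + 2)) : ef X j (blk π j) 0 ≠ ef X j (blk π j) 1 ∧
      ∀ A : Finset (Fin ((K + 2) * h)), ef X j A 0 ≠ ef X j A 1 → A.card = h →
        vl (blk π j) < vl A → β (j, A) ∉ ({2, 3} : Finset (Fin 4)) := by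
  constructor
  · intro heq
    apply hc
    apply coef_eq_zero j
    intro y x
    rw [hg, hg, parity_fam, parity_fam]
    congr 1
    refine prod_congr rfl ?_
    rintro ⟨j', A⟩ _
    by_cases h1 : j' = j ∧ A = blk π j
    · obtain ⟨rfl, rfl⟩ := h1
      have h2 : ∀ σ : ZMod 2, ef X j' (blk π j') σ = ef X j' (blk π j') 0 := by
        intro σ
        have h3 : σ = 0 ∨ σ = 1 := by
          revert σ
          decide
        rcases h3 with rfl | rfl
        · rfl
        · exact heq.symm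
      simp only
      rw [h2, h2 (stt π β y x j' (blk π j'))]
    · simp only
      rw [stt_flip h1]
  · intro A hA hcard hv hβ
    apply hc
    apply coef_eq_zero' (j, A)
    intro y x
    have hne : A ≠ blk π j := by
      rintro rfl
      exact lt_irrefl _ hv
    have hβ0 : β (j, A) ≠ 0 := by
      intro h1
      rw [h1] at hβ
      revert hβ
      decide
    have hβ1 : β (j, A) ≠ 1 := by
      intro h1
      rw [h1] at hβ
      revert hβ
      decide
    have hmem : (j, A) ∈ pres π := by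
      simp [pres, hcard, hv.le]
    rw [hg, hg, parity_fam, parity_fam, ← mul_prod_erase _ _ hmem, ← mul_prod_erase _ _ hmem]
    have h1 : ∏ p ∈ (pres π).erase (j, A),
        ef X p.1 p.2 (stt π β (y + Pi.single (j, A) 1) x p.1 p.2) =
        ∏ p ∈ (pres π).erase (j, A), ef X p.1 p.2 (stt π β y x p.1 p.2) := by
      refine prod_congr rfl ?_
      rintro ⟨j', A'⟩ hp
      have h2 : (j', A') ≠ (j, A) := (mem_erase.1 hp).1
      simp only
      unfold stt
      simp [h2]
    rw [h1]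
    simp only
    have h2 : stt π β (y + Pi.single (j, A) 1) x j A = y (j, A) + 1 := by
      unfold stt
      rw [if_neg hne, if_neg hβ0, if_neg hβ1]
      simp
    have h3 : stt π β y x j A = y (j, A) := by
      unfold stt
      rw [if_neg hne, if_neg hβ0, if_neg hβ1]
    rw [h2, h3]
    have h4 : ef X j A (y (j, A) + 1) = - ef X j A (y (j, A)) := by
      have h5 : ∀ d : ZMod 2, ef X j A (d + 1) = - ef X j A d := by
        intro d
        have h6 : ef X j A 1 = - ef X j A 0 := by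
          rcases ef_eq_or X j A 0 with h7 | h7 <;> rcases ef_eq_or X j A 1 with h8 | h8
          · exact absurd (h7.trans h8.symm) hA
          · rw [h7, h8]
          · rw [h7, h8]; norm_num
          · exact absurd (h7.trans h8.symm) hA
        have h7 : d = 0 ∨ d = 1 := by
          revert d
          decide
        rcases h7 with rfl | rfl
        · rw [zero_add]; exact h6
        · have h8 : (1 : ZMod 2) + 1 = 0 := by decide
          rw [h8, h6, neg_neg]
      exact h5 _
    rw [h4]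
    ring

end SetCoverThr
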