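import Pool.Agent.Lib.MP_8fffab_lc_TX.Defs

/-!
# The upper bound
-/

set_option autoImplicit false

open Finset

namespace SetCoverThr

/-- For families of sets with `h` elements, covers by `k` sets of `k * h` elements are given by
maps to `Fin k`. -/
theorem hasCover_iff_map {k h : ℕ} (hk : 0 < k) (hh : 0 < h) (F : Finset (Finset (Fin (k * h))))
    (hF : ∀ S ∈ F, S.card = h) :
    HasCover k F ↔ ∃ φ : Fin (k * h) → Fin k, ∀ i, (univ.filter fun v => φ v = i) ∈ F := by
  constructor
  · rintro ⟨G, hG, hGk, hcov⟩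
    have h1 : ∑ v : Fin (k * h), (G.filter fun S => v ∈ S).card = G.card * h := by
      have h2 : ∑ v : Fin (k * h), (G.filter fun S => v ∈ S).card = ∑ S ∈ G, S.card := by
        simp only [card_filter]
        rw [sum_comm]
        refine sum_congr rfl fun S _ => ?_
        rw [sum_ite_mem, univ_inter, card_eq_sum_ones]
      rw [h2, sum_congr rfl fun S hS => hF S (hG hS), sum_const, smul_eq_mul]
    have h3 : ∀ v ∈ (univ : Finset (Fin (k * h))), 1 ≤ (G.filter fun S => v ∈ S).card := by
      intro v _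
      obtain ⟨S, hS, hv⟩ := hcov v
      exact card_pos.2 ⟨S, mem_filter.2 ⟨hS, hv⟩⟩
    have h4 : ∑ _v : Fin (k * h), 1 = k * h := by simp
    have h5 := sum_le_sum h3
    rw [h4, h1] at h5
    have h6 : G.card = k := le_antisymm hGk (Nat.le_of_mul_le_mul_right h5 hh)
    have h7 : ∑ _v : Fin (k * h), 1 = ∑ v : Fin (k * h), (G.filter fun S => v ∈ S).card := by
      rw [h4, h1, h6]
    have h8 := (sum_eq_sum_iff_of_le h3).1 h7
    have h9 : Fintype.card G = Fintype.card (Fin k) := by
      rw [Fintype.card_coe, h6, Fintype.card_fin]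
    have e : G ≃ Fin k := Fintype.equivOfCardEq h9
    choose c hcG hcv using hcov
    refine ⟨fun v => e ⟨c v, hcG v⟩, fun i => ?_⟩
    have h10 : (univ.filter fun v => e ⟨c v, hcG v⟩ = i) = (e.symm i : Finset (Fin (k * h))) := by
      ext v
      simp only [mem_filter, mem_univ, true_and]
      constructor
      · intro h11
        rw [← h11, Equiv.symm_apply_apply]
        exact hcv v
      · intro h11
        have h12 := (card_eq_one.1 (h8 v (mem_univ v)).symm)
        obtain ⟨S, hS⟩ := h12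
        have h13 : c v ∈ G.filter fun S => v ∈ S := mem_filter.2 ⟨hcG v, hcv v⟩
        have h14 : (e.symm i : Finset (Fin (k * h))) ∈ G.filter fun S => v ∈ S :=
          mem_filter.2 ⟨(e.symm i).2, h11⟩
        rw [hS, mem_singleton] at h13 h14
        rw [← e.apply_symm_apply i]
        congr 1
        apply Subtype.ext
        change c v = _
        rw [h13, h14]
    rw [h10]
    exact hG (e.symm i).2
  · rintro ⟨φ, hφ⟩
    refine ⟨univ.image fun i => univ.filter fun v => φ v = i, ?_, ?_, ?_⟩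
    · intro S hS
      obtain ⟨i, -, rfl⟩ := mem_image.1 hS
      exact hφ i
    · refine card_image_le.trans ?_
      rw [card_univ, Fintype.card_fin]
    · intro v
      exact ⟨_, mem_image_of_mem _ (mem_univ (φ v)), by simp⟩

theorem upper (k h : ℕ) (hk : 0 < k) (hh : 0 < h) :
    ∃ g : Fin (k ^ (k * h)) → Finset (Finset (Fin (k * h))) → ℝ, (∀ i, IsGate 1 (g i)) ∧
      ∀ F : Finset (Finset (Fin (k * h))), (∀ S ∈ F, S.card = h) →
        (HasCover k F ↔ 0 < ∑ i, g i F) := by
  classical
  have hcard : Fintype.card (Fin (k * h) → Fin k) = k ^ (k * h) := by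
    rw [Fintype.card_fun, Fintype.card_fin, Fintype.card_fin]
  have e : Fin (k ^ (k * h)) ≃ (Fin (k * h) → Fin k) := (Fintype.equivFinOfCardEq hcard).symm
  obtain ⟨T, hT⟩ : ∃ T : (Fin (k * h) → Fin k) →
      Finset (Finset (Fin (k * h))) × Finset (Finset (Fin (k * h))),
      T = fun φ => (univ.image fun i => univ.filter fun v => φ v = i, ∅) := ⟨_, rfl⟩
  have hTh : ∀ φ F, Holds (T φ) F ↔ ∀ i, (univ.filter fun v => φ v = i) ∈ F := by
    intro φ F
    rw [hT]
    unfold Holds
    constructor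
    · rintro ⟨h1, -⟩ i
      exact h1 _ (mem_image_of_mem _ (mem_univ i))
    · intro h1
      refine ⟨fun S hS => ?_, fun S hS => by simp at hS⟩
      obtain ⟨i, -, rfl⟩ := mem_image.1 hS
      exact h1 i
  refine ⟨fun i F => if Holds (T (e i)) F then 1 else 0, fun i => Or.inl
    ⟨fun _ => T (e i), fun P => if P 0 then 1 else 0, fun F => rfl⟩, fun F hF => ?_⟩
  rw [hasCover_iff_map hk hh F hF]
  have h1 : ∑ i, (if Holds (T (e i)) F then (1 : ℝ) else 0) =
      ∑ φ, if Holds (T φ) F then (1 : ℝ) else 0 :=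
    Equiv.sum_comp e fun φ => if Holds (T φ) F then (1 : ℝ) else 0
  rw [h1, ← Nat.cast_one, ← Nat.cast_zero]
  have h2 : ∑ φ, (if Holds (T φ) F then ((1 : ℕ) : ℝ) else ((0 : ℕ) : ℝ)) =
      ((univ.filter fun φ => Holds (T φ) F).card : ℝ) := by
    rw [card_filter]
    push_cast
    rfl
  rw [h2, Nat.cast_lt, card_pos]
  constructor
  · rintro ⟨φ, hφ⟩
    exact ⟨φ, mem_filter.2 ⟨mem_univ _, (hTh φ F).2 hφ⟩⟩
  · rintro ⟨φ, hφ⟩
    exact ⟨φ, (hTh φ F).1 (mem_filter.1 hφ).2⟩

end SetCoverThr
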